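import Mathlib

/-! Statements for MP_514f88_co (bisector-rich sets have at least eight points; lines and circles). -/

namespace Pool.Agent.Helper82.BR

open scoped ComplexConjugate

/-- Bisector-rich, for finite sets of complex numbers. -/
def Rich (S : Finset ℂ) : Prop :=
  ∀ p ∈ S, ∀ q ∈ S, p ≠ q → 2 ≤ (S.filter (fun s => dist s p = dist s q)).card

/-- The Euclidean plane. -/
abbrev Plane := EuclideanSpace ℝ (Fin 2)

/-- Bisector-rich sets, as in the problem. -/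
def BisectorRich (S : Set Plane) : Prop :=
  S.Finite ∧ 2 ≤ S.ncard ∧
    ∀ p ∈ S, ∀ q ∈ S, p ≠ q →
      2 ≤ ((AffineSubspace.perpBisector p q : Set Plane) ∩ S).ncard

/-- TR: transfer to `ℂ`. -/
def StTR : Prop := ∀ S : Set Plane, BisectorRich S →
  ∃ T : Finset ℂ, (∀ z, z ∈ T ↔ Complex.orthonormalBasisOneI.repr z ∈ S) ∧
    T.card = S.ncard ∧ Rich T

/-- SIM: similarities. -/
def StSIM : Prop := ∀ (S : Finset ℂ) (a c : ℂ), a ≠ 0 → Rich S →
  Rich (S.image (fun z => a * (z - c)))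

/-- SUM: sums of two distinct elements of a finite set of reals. -/
def StSUM : Prop := ∀ A : Finset ℝ, 2 ≤ A.card →
  2 * A.card ≤ ((A.offDiag).image (fun x => x.1 + x.2)).card + 3

/-- LIN: at most `n/4 + 1` points on the real axis. -/
def StLIN : Prop := ∀ S : Finset ℂ, Rich S → 2 ≤ S.card →
  4 * (S.filter (fun s => s.im = 0)).card ≤ S.card + 4

/-- NC: no three points collinear if there are at most seven points. -/
def StNC : Prop := ∀ S : Finset ℂ, Rich S → 2 ≤ S.card → S.card ≤ 7 →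
  ∀ x ∈ S, ∀ y ∈ S, ∀ z ∈ S, x ≠ y → x ≠ z → y ≠ z → ((x - z) * conj (y - z)).im ≠ 0

/-- CA: two pairs at 60 degrees on a circle around a point of `S`. -/
def StCA : Prop := ∀ (S : Finset ℂ) (w : ℂ), w ^ 2 = w - 1 → Rich S → (0 : ℂ) ∈ S → S.card ≤ 7 →
  4 ≤ (S.filter (fun s => ‖s‖ = 1)).card →
  ∃ p ∈ S, ∃ q ∈ S, p ≠ q ∧ ‖p‖ = 1 ∧ ‖q‖ = 1 ∧ p * w ∈ S ∧ q * w ∈ S

/-- CB: all products of points on the unit circle are directions. -/
def StCB : Prop := ∀ (S : Finset ℂ), Rich S → (0 : ℂ) ∈ S →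
  ∀ p ∈ S, ∀ q ∈ S, ‖p‖ = 1 → ‖q‖ = 1 → ∃ s ∈ S, s ≠ 0 ∧ s = p * q * conj s

/-- CC: a chain of three and a fourth point. -/
def StCC : Prop := ∀ (D : Finset ℂ) (w p r : ℂ), w ^ 2 = w - 1 → p ≠ 0 → D.card ≤ 6 →
  (∀ x ∈ ({p, p * w, p * w ^ 2, r} : Finset ℂ), ∀ y ∈ ({p, p * w, p * w ^ 2, r} : Finset ℂ),
    x * y ∈ D) →
  r ≠ p → r ≠ p * w → r ≠ p * w ^ 2 → r ≠ -p → r ≠ -(p * w) → r ≠ -(p * w ^ 2) → False

/-- CD: two pairs at 60 degrees in different hexagons. -/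
def StCD : Prop := ∀ (D : Finset ℂ) (w p q : ℂ), w ^ 2 = w - 1 → p ≠ 0 → q ≠ 0 → D.card ≤ 6 →
  (∀ x ∈ ({p, p * w, q, q * w} : Finset ℂ), ∀ y ∈ ({p, p * w, q, q * w} : Finset ℂ),
    x * y ∈ D) →
  q ≠ p → q ≠ p * w → q ≠ p * w ^ 2 → q ≠ -p → q ≠ -(p * w) → q ≠ -(p * w ^ 2) → False

/-- CE: the circle lemma: at most three points on a circle around a point of `S`. -/
def StCE : Prop := ∀ (S : Finset ℂ), Rich S → 2 ≤ S.card → S.card ≤ 7 → (0 : ℂ) ∈ S →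
  (S.filter (fun s => ‖s‖ = 1)).card ≤ 3

/-- FA: equality in the double counting. -/
def StFA : Prop := ∀ (S : Finset ℂ), Rich S →
  (∀ c ∈ S, ∀ r : ℝ, 0 < r → (S.filter (fun s => dist s c = r)).card ≤ 3) →
  ∀ c ∈ S, ∀ p ∈ S, p ≠ c → (S.filter (fun s => dist s c = dist p c)).card = 3

/-- KF: no four equidistant points in the plane. -/
def StKF : Prop := ∀ (a b c d : ℂ) (r : ℝ), 0 < r → dist a b = r → dist a c = r → dist a d = r →
  dist b c = r → dist b d = r → dist c d = r → False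

/-- FB: eighteen ordered pairs for every distance. -/
def StFB : Prop := ∀ (S : Finset ℂ), S.card ≤ 7 →
  (∀ c ∈ S, ∀ p ∈ S, p ≠ c → (S.filter (fun s => dist s c = dist p c)).card = 3) →
  ∀ c ∈ S, ∀ p ∈ S, p ≠ c →
    (S.offDiag.filter (fun x => dist x.1 x.2 = dist p c)).card = 18

/-- FC: contradiction. -/
def StFC : Prop := ∀ (S : Finset ℂ), 2 ≤ S.card → S.card ≤ 7 →
  (∀ c ∈ S, ∀ p ∈ S, p ≠ c →
    (S.offDiag.filter (fun x => dist x.1 x.2 = dist p c)).card = 18) → False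

/-- PR: products of distinct elements. -/
def StPR : Prop := ∀ A : Finset ℂ, (0 : ℂ) ∉ A → 3 ≤ A.card →
  A.card ≤ ((A.offDiag).image (fun x => x.1 * x.2)).card

/-- CI: circles whose centre is not in `S`. -/
def StCI : Prop := ∀ S : Finset ℂ, Rich S → 2 ≤ S.card → (0 : ℂ) ∉ S →
  2 * (S.filter (fun s => ‖s‖ = 1)).card ≤ S.card

/-- CT: circles whose centre is in `S`. -/
def StCT : Prop := ∀ S : Finset ℂ, Rich S → 2 ≤ S.card → (0 : ℂ) ∈ S →
  9 * (S.filter (fun s => ‖s‖ = 1)).card + 8 ≤ 8 * S.card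

end Pool.Agent.Helper82.BR
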