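import Pool.Agent.Helper82.BR.St

namespace Pool.Agent.Helper82.BR

open scoped ComplexConjugate

/-- Kelly's points (outward for `h = 1 + √3`, inward for `h = 1 - √3`). -/
noncomputable def KC (h : ℝ) : Finset ℂ :=
  {1 + Complex.I, -1 + Complex.I, 1 - Complex.I, -1 - Complex.I, (h : ℂ), -(h : ℂ),
    (h : ℂ) * Complex.I, -((h : ℂ) * Complex.I)}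

/-- Similar to one of Kelly's two sets. -/
def Sim8 (S : Finset ℂ) : Prop :=
  ∃ a b : ℂ, a ≠ 0 ∧ ∃ h : ℝ, (h = 1 + Real.sqrt 3 ∨ h = 1 - Real.sqrt 3) ∧
    (S.image (fun z => a * z + b) = KC h ∨ S.image (fun z => a * conj z + b) = KC h)

/-- Kelly's sets in the plane. -/
def kelly (h : ℝ) : Set Plane :=
  {!₂[1, 1], !₂[-1, 1], !₂[1, -1], !₂[-1, -1], !₂[h, 0], !₂[-h, 0], !₂[0, h], !₂[0, -h]}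

/-- Similar sets of the plane. -/
def SimilarTo (S K : Set Plane) : Prop :=
  ∃ f : Plane → Plane, ∃ r : ℝ, 0 < r ∧ (∀ x y, dist (f x) (f y) = r * dist x y) ∧ f '' S = K

/-- NA1 -/
def StNA1 : Prop := ∀ (S : Finset ℂ), Rich S → S.card = 8 →
  (∃ x ∈ S, ∃ y ∈ S, ∃ z ∈ S, x ≠ y ∧ x ≠ z ∧ y ≠ z ∧ ((x - z) * conj (y - z)).im = 0) →
  ∃ (T : Finset ℂ) (y0 y1 y2 y3 y4 : ℝ), y0 ≠ 0 ∧ y1 ≠ 0 ∧ y2 ≠ 0 ∧ y3 ≠ 0 ∧ y4 ≠ 0 ∧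
    y1 ≠ y2 ∧ y3 ≠ y4 ∧ Rich T ∧
    ∀ z : ℂ, z ∈ T ↔ z = ⟨-1, 0⟩ ∨ z = ⟨0, 0⟩ ∨ z = ⟨1, 0⟩ ∨ z = ⟨0, y0⟩ ∨ z = ⟨-1/2, y1⟩ ∨
      z = ⟨-1/2, y2⟩ ∨ z = ⟨1/2, y3⟩ ∨ z = ⟨1/2, y4⟩

/-- NA2 -/
def StNA2 : Prop := ∀ (T : Finset ℂ) (y0 y1 y2 y3 y4 : ℝ), y0 ≠ 0 → y1 ≠ 0 → y2 ≠ 0 →
  y3 ≠ 0 → y4 ≠ 0 → y1 ≠ y2 → y3 ≠ y4 → Rich T →
  (∀ z : ℂ, z ∈ T ↔ z = ⟨-1, 0⟩ ∨ z = ⟨0, 0⟩ ∨ z = ⟨1, 0⟩ ∨ z = ⟨0, y0⟩ ∨ z = ⟨-1/2, y1⟩ ∨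
      z = ⟨-1/2, y2⟩ ∨ z = ⟨1/2, y3⟩ ∨ z = ⟨1/2, y4⟩) → False

/-- N4 -/
def StN4 : Prop := ∀ (S : Finset ℂ), Rich S → S.card = 8 →
  ∃ c ∈ S, ∃ r : ℝ, 0 < r ∧ 4 ≤ (S.filter (fun s => dist s c = r)).card

/-- E1 -/
def StE1 : Prop := ∀ (S : Finset ℂ) (w : ℂ), w ^ 2 = w - 1 → Rich S → (0 : ℂ) ∈ S →
  S.card = 8 → 4 ≤ (S.filter (fun s => ‖s‖ = 1)).card →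
  ∃ p ∈ S, ‖p‖ = 1 ∧ p * w ∈ S

/-- GP -/
def StGP : Prop := ∀ (D : Finset ℂ) (w p q r : ℂ), w ^ 2 = w - 1 → D.card ≤ 7 →
  p ≠ 0 → q ≠ 0 → r ≠ 0 →
  (∀ x ∈ ({p, p * w, q, r} : Finset ℂ), ∀ y ∈ ({p, p * w, q, r} : Finset ℂ), x * y ∈ D) →
  (∀ x ∈ ({p, p * w, q, r} : Finset ℂ), -x ∉ ({p, p * w, q, r} : Finset ℂ)) →
  q ≠ p → q ≠ p * w → r ≠ p → r ≠ p * w → q ≠ r →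
  ∃ x ρ : ℂ, x ∈ ({p, p * w, q, r} : Finset ℂ) ∧ x * ρ ∈ ({p, p * w, q, r} : Finset ℂ) ∧
    x * ρ ^ 2 ∈ ({p, p * w, q, r} : Finset ℂ) ∧ x * ρ ^ 3 ∈ ({p, p * w, q, r} : Finset ℂ) ∧
    (ρ ^ 2 = w ∨ ρ ^ 3 = w)

/-- CFG -/
def StCFG : Prop := ∀ (S : Finset ℂ) (w ρ : ℂ), w ^ 2 = w - 1 → (ρ ^ 2 = w ∨ ρ ^ 3 = w) →
  ‖ρ‖ = 1 → Rich S → S.card = 8 → (0 : ℂ) ∈ S → (1 : ℂ) ∈ S → ρ ∈ S → ρ ^ 2 ∈ S → ρ ^ 3 ∈ S →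
  ∃ b1 b2 b3 : ℂ, b1 ≠ 0 ∧ b2 ≠ 0 ∧ b3 ≠ 0 ∧ b1 = ρ * conj b1 ∧ b2 = ρ ^ 3 * conj b2 ∧
    b3 = ρ ^ 5 * conj b3 ∧
    ∀ z, z ∈ S ↔ z = 0 ∨ z = 1 ∨ z = ρ ∨ z = ρ ^ 2 ∨ z = ρ ^ 3 ∨ z = b1 ∨ z = b2 ∨ z = b3

/-- The configuration of eight points. -/
def Cfg (S : Finset ℂ) (w ρ b1 b2 b3 : ℂ) : Prop :=
  w ^ 2 = w - 1 ∧ ‖ρ‖ = 1 ∧ Rich S ∧ b1 ≠ 0 ∧ b2 ≠ 0 ∧ b3 ≠ 0 ∧ b1 = ρ * conj b1 ∧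
    b2 = ρ ^ 3 * conj b2 ∧ b3 = ρ ^ 5 * conj b3 ∧
    ∀ z, z ∈ S ↔ z = 0 ∨ z = 1 ∨ z = ρ ∨ z = ρ ^ 2 ∨ z = ρ ^ 3 ∨ z = b1 ∨ z = b2 ∨ z = b3

/-- R3 -/
def StR3 : Prop := ∀ (S : Finset ℂ) (w ρ b1 b2 b3 : ℂ), Cfg S w ρ b1 b2 b3 → ρ ^ 3 = w → False

/-- R2A -/
def StR2A : Prop := ∀ (S : Finset ℂ) (w ρ b1 b2 b3 : ℂ), Cfg S w ρ b1 b2 b3 → ρ ^ 2 = w →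
  (b1 * (1 + ρ) = ρ ∧ b3 * (1 + ρ) = ρ ^ 3) ∨
  (b1 * (1 + ρ ^ 3) = ρ ^ 2 ∧ b2 * (1 + ρ ^ 3) = ρ ^ 3 ∧ b3 * (1 + ρ ^ 3) = ρ ^ 4) ∨
  (b1 * (1 + ρ ^ 5) = ρ ^ 3 ∧ b2 * (1 + ρ) = ρ ^ 2 ∧ b3 * (1 + ρ ^ 5) = ρ ^ 5)

/-- R2B -/
def StR2B : Prop := ∀ (S : Finset ℂ) (w ρ b1 b2 b3 : ℂ), Cfg S w ρ b1 b2 b3 → ρ ^ 2 = w →
  b1 * (1 + ρ ^ 3) = ρ ^ 2 → b2 * (1 + ρ ^ 3) = ρ ^ 3 → b3 * (1 + ρ ^ 3) = ρ ^ 4 → False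

/-- R2C -/
def StR2C : Prop := ∀ (S : Finset ℂ) (w ρ b1 b2 b3 : ℂ), Cfg S w ρ b1 b2 b3 → ρ ^ 2 = w →
  b1 * (1 + ρ ^ 5) = ρ ^ 3 → b2 * (1 + ρ) = ρ ^ 2 → b3 * (1 + ρ ^ 5) = ρ ^ 5 → False

/-- R2D -/
def StR2D : Prop := ∀ (S : Finset ℂ) (w ρ b1 b2 b3 : ℂ), Cfg S w ρ b1 b2 b3 → ρ ^ 2 = w →
  b1 * (1 + ρ) = ρ → b3 * (1 + ρ) = ρ ^ 3 → b2 = 1 + ρ ^ 3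

/-- SHP -/
def StSHP : Prop := ∀ (S : Finset ℂ) (ρ b1 b3 : ℂ), ρ ^ 4 = ρ ^ 2 - 1 → ‖ρ‖ = 1 →
  b1 * (1 + ρ) = ρ → b3 * (1 + ρ) = ρ ^ 3 →
  (∀ z, z ∈ S ↔ z = 0 ∨ z = 1 ∨ z = ρ ∨ z = ρ ^ 2 ∨ z = ρ ^ 3 ∨ z = b1 ∨ z = 1 + ρ ^ 3 ∨
    z = b3) → Sim8 S

/-- SB: similarity pulls back. -/
def StSB : Prop := ∀ (S : Finset ℂ) (a c : ℂ), a ≠ 0 → Sim8 (S.image (fun z => a * (z - c))) →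
  Sim8 S

/-- PL: to the plane. -/
def StPL : Prop := ∀ (S : Set Plane) (T : Finset ℂ),
  (∀ z, z ∈ T ↔ Complex.orthonormalBasisOneI.repr z ∈ S) → Sim8 T →
  SimilarTo S (kelly (1 + Real.sqrt 3)) ∨ SimilarTo S (kelly (1 - Real.sqrt 3))

end Pool.Agent.Helper82.BR
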