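import Pool.Agent.Helper82.BR.St

namespace Pool.Agent.Helper82.BR

open scoped ComplexConjugate

/-- A primitive sixth root of unity. -/
theorem exists_w : ∃ w : ℂ, w ^ 2 = w - 1 := by
  refine ⟨⟨1 / 2, Real.sqrt 3 / 2⟩, ?_⟩
  have h3 : Real.sqrt 3 * Real.sqrt 3 = 3 := Real.mul_self_sqrt (by norm_num)
  apply Complex.ext
  · simp [pow_two, Complex.mul_re]; nlinarith
  · simp [pow_two, Complex.mul_im]; ring

theorem norm_w {w : ℂ} (hw : w ^ 2 = w - 1) : ‖w‖ = 1 := by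
  have h3 : w ^ 3 = -1 := by linear_combination (w + 1) * hw
  have h : ‖w‖ ^ 3 = 1 := by rw [← norm_pow, h3]; simp
  have h0 : 0 ≤ ‖w‖ := norm_nonneg w
  exact (pow_eq_one_iff_of_nonneg h0 (by norm_num)).mp h

/-- The corrected form of `StCC`. -/
def StCC1 : Prop := ∀ (D : Finset ℂ) (w p r : ℂ), w ^ 2 = w - 1 → p ≠ 0 → r ≠ 0 → D.card ≤ 6 →
  (∀ x ∈ ({p, p * w, p * w ^ 2, r} : Finset ℂ), ∀ y ∈ ({p, p * w, p * w ^ 2, r} : Finset ℂ),
    x * y ∈ D) →
  r ≠ p → r ≠ p * w → r ≠ p * w ^ 2 → r ≠ -p → r ≠ -(p * w) → r ≠ -(p * w ^ 2) → False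

theorem hCE (hNC : StNC) (hCA : StCA) (hCB : StCB) (hCC : StCC1) (hCD : StCD) : StCE := by
  intro S hR h2 h7 h0
  by_contra hcon
  push_neg at hcon
  have h4 : 4 ≤ (S.filter (fun s => ‖s‖ = 1)).card := hcon
  obtain ⟨w, hw⟩ := exists_w
  have hw1 := norm_w hw
  have hw3 : w ^ 3 = -1 := by linear_combination (w + 1) * hw
  -- no antipodes
  have hanti : ∀ x ∈ S, ‖x‖ = 1 → -x ∉ S := by
    intro x hx hx1 hnx
    have hx0 : x ≠ 0 := by intro h; rw [h] at hx1; simp at hx1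
    have := hNC S hR h2 h7 x hx (-x) hnx 0 h0
      (by intro h; apply hx0; linear_combination (1/2) * h) hx0 (by simpa using hx0)
    apply this
    simp [Complex.mul_im]
    ring
  set D : Finset ℂ := (S.erase 0).image (fun s => s / conj s) with hD
  have hDc : D.card ≤ 6 := by
    have : D.card ≤ (S.erase 0).card := Finset.card_image_le
    rw [Finset.card_erase_of_mem h0] at this
    omega
  have hprod : ∀ p ∈ S, ∀ q ∈ S, ‖p‖ = 1 → ‖q‖ = 1 → p * q ∈ D := by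
    intro p hp q hq hp1 hq1
    obtain ⟨s, hs, hs0, hse⟩ := hCB S hR h0 p hp q hq hp1 hq1
    rw [hD, Finset.mem_image]
    refine ⟨s, Finset.mem_erase.mpr ⟨hs0, hs⟩, ?_⟩
    have hc : conj s ≠ 0 := by simpa using hs0
    rw [div_eq_iff hc]; exact hse
  obtain ⟨p, hp, q, hq, hpq, hp1, hq1, hpw, hqw⟩ := hCA S w hw hR h0 h7 h4
  have hne0 : ∀ x : ℂ, ‖x‖ = 1 → x ≠ 0 := by
    intro x hx h; rw [h] at hx; simp at hx
  have hnw : ∀ x : ℂ, ‖x‖ = 1 → ‖x * w‖ = 1 := by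
    intro x hx; rw [norm_mul, hx, hw1, one_mul]
  -- the chain case
  have hchain : ∀ p ∈ S, ‖p‖ = 1 → p * w ∈ S → p * w ^ 2 ∈ S → False := by
    intro p hp hp1 hpw hpw2
    have hpw21 : ‖p * w ^ 2‖ = 1 := by rw [norm_mul, norm_pow, hw1, hp1]; norm_num
    -- a fourth point
    have : ∃ r ∈ S.filter (fun s => ‖s‖ = 1), r ∉ ({p, p * w, p * w ^ 2} : Finset ℂ) := by
      by_contra hh
      push_neg at hh
      have hsub : S.filter (fun s => ‖s‖ = 1) ⊆ ({p, p * w, p * w ^ 2} : Finset ℂ) := hh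
      have := (Finset.card_le_card hsub).trans Finset.card_le_three
      omega
    obtain ⟨r, hr, hr3⟩ := this
    rw [Finset.mem_filter] at hr
    simp only [Finset.mem_insert, Finset.mem_singleton, not_or] at hr3
    have hall : ∀ x ∈ ({p, p * w, p * w ^ 2, r} : Finset ℂ), x ∈ S ∧ ‖x‖ = 1 := by
      intro x hx
      simp only [Finset.mem_insert, Finset.mem_singleton] at hx
      rcases hx with h | h | h | h
      · rw [h]; exact ⟨hp, hp1⟩
      · rw [h]; exact ⟨hpw, hnw p hp1⟩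
      · rw [h]; exact ⟨hpw2, hpw21⟩
      · rw [h]; exact hr
    refine hCC D w p r hw (hne0 p hp1) (hne0 r hr.2) hDc ?_ hr3.1 hr3.2.1 hr3.2.2 ?_ ?_ ?_
    · intro x hx y hy
      exact hprod x (hall x hx).1 y (hall y hy).1 (hall x hx).2 (hall y hy).2
    · intro h; exact hanti p hp hp1 (h ▸ hr.1)
    · intro h; exact hanti (p * w) hpw (hnw p hp1) (h ▸ hr.1)
    · intro h; exact hanti (p * w ^ 2) hpw2 hpw21 (h ▸ hr.1)
  have hall : ∀ x ∈ ({p, p * w, q, q * w} : Finset ℂ), x ∈ S ∧ ‖x‖ = 1 := by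
    intro x hx
    simp only [Finset.mem_insert, Finset.mem_singleton] at hx
    rcases hx with h | h | h | h
    · rw [h]; exact ⟨hp, hp1⟩
    · rw [h]; exact ⟨hpw, hnw p hp1⟩
    · rw [h]; exact ⟨hq, hq1⟩
    · rw [h]; exact ⟨hqw, hnw q hq1⟩
  refine hCD D w p q hw (hne0 p hp1) (hne0 q hq1) hDc ?_ (Ne.symm hpq) ?_ ?_ ?_ ?_ ?_
  · intro x hx y hy
    exact hprod x (hall x hx).1 y (hall y hy).1 (hall x hx).2 (hall y hy).2
  · -- q = p w
    intro h
    refine hchain p hp hp1 hpw ?_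
    have : p * w ^ 2 = q * w := by rw [h]; ring
    rw [this]; exact hqw
  · -- q = p w^2 : q w = -p
    intro h
    apply hanti p hp hp1
    have : -p = q * w := by rw [h]; linear_combination -p * hw3
    rw [this]; exact hqw
  · intro h; exact hanti p hp hp1 (h ▸ hq)
  · intro h; exact hanti (p * w) hpw (hnw p hp1) (h ▸ hq)
  · -- q = - p w^2 : q w = p
    intro h
    have h1 : q * w = p := by rw [h]; linear_combination -p * hw3
    have h2' : q * w ^ 2 = p * w := by rw [← h1]; ring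
    exact hchain q hq hq1 (h1 ▸ hp) (h2' ▸ hpw)

end Pool.Agent.Helper82.BR
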