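import Pool.Agent.Helper82.BR.St3
import Pool.Agent.Helper82.BR.M_CE

namespace Pool.Agent.Helper82.BR

open scoped ComplexConjugate

theorem rich_rot {S : Finset ℂ} (hSIM : StSIM) {a : ℂ} (ha : a ≠ 0) (c : ℂ) (hR : Rich S) :
    Rich (S.image (fun z => a * (z - c))) := hSIM S a c ha hR

theorem inj8 {a : ℂ} (ha : a ≠ 0) (c : ℂ) : Function.Injective (fun z : ℂ => a * (z - c)) := by
  intro x y hxy
  have := mul_left_cancel₀ ha hxy
  linear_combination this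

/-- The normalised step: `0 ∈ S` and four points on the unit circle. -/
theorem norm8 (hSIM : StSIM) (hCB : StCB) (hNA1 : StNA1) (hNA2 : StNA2) (hE1 : StE1) (hGP : StGP)
    (hCFG : StCFG) (hR3 : StR3) (hR2A : StR2A) (hR2B : StR2B) (hR2C : StR2C) (hR2D : StR2D)
    (hSHP : StSHP) (hSB : StSB)
    (S : Finset ℂ) (hR : Rich S) (h8 : S.card = 8) (h0 : (0 : ℂ) ∈ S)
    (h4 : 4 ≤ (S.filter (fun s => ‖s‖ = 1)).card) : Sim8 S := by
  obtain ⟨w, hw⟩ := exists_w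
  have hw1 := norm_w hw
  -- no antipodes
  have hanti : ∀ x ∈ S, ‖x‖ = 1 → -x ∉ S := by
    intro x hx hx1 hnx
    have hx0 : x ≠ 0 := by intro h; rw [h] at hx1; simp at hx1
    have hcol : ∃ x ∈ S, ∃ y ∈ S, ∃ z ∈ S, x ≠ y ∧ x ≠ z ∧ y ≠ z ∧
        ((x - z) * conj (y - z)).im = 0 := by
      refine ⟨x, hx, -x, hnx, 0, h0, ?_, hx0, by simpa using hx0, ?_⟩
      · intro h; apply hx0; linear_combination (1/2) * h
      · simp [Complex.mul_im]; ring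
    obtain ⟨T, y0, y1, y2, y3, y4, g0, g1, g2, g3, g4, g12, g34, hT, hTm⟩ := hNA1 S hR h8 hcol
    exact hNA2 T y0 y1 y2 y3 y4 g0 g1 g2 g3 g4 g12 g34 hT hTm
  set D : Finset ℂ := (S.erase 0).image (fun s => s / conj s) with hD
  have hDc : D.card ≤ 7 := by
    have : D.card ≤ (S.erase 0).card := Finset.card_image_le
    rw [Finset.card_erase_of_mem h0] at this
    omega
  have hprod : ∀ p ∈ S, ∀ q ∈ S, ‖p‖ = 1 → ‖q‖ = 1 → p * q ∈ D := by
    intro p hp q hq hp1 hq1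
    obtain ⟨s, hs, hs0, hse⟩ := hCB S hR h0 p hp q hq hp1 hq1
    rw [hD, Finset.mem_image]
    refine ⟨s, Finset.mem_erase.mpr ⟨hs0, hs⟩, ?_⟩
    have hc : conj s ≠ 0 := by simpa using hs0
    rw [div_eq_iff hc]; exact hse
  have hne0 : ∀ x : ℂ, ‖x‖ = 1 → x ≠ 0 := by
    intro x hx h; rw [h] at hx; simp at hx
  obtain ⟨p, hp, hp1, hpw⟩ := hE1 S w hw hR h0 h8 h4
  have hpw1 : ‖p * w‖ = 1 := by rw [norm_mul, hp1, hw1, one_mul]
  -- two further points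
  set A := S.filter (fun s => ‖s‖ = 1) with hA
  have hA2 : 1 < (A \ ({p, p * w} : Finset ℂ)).card := by
    have h1 := Finset.le_card_sdiff ({p, p * w} : Finset ℂ) A
    have h2 : ({p, p * w} : Finset ℂ).card ≤ 2 := Finset.card_le_two
    omega
  obtain ⟨q, hq, r, hr, hqr⟩ := Finset.one_lt_card.mp hA2
  rw [Finset.mem_sdiff, hA, Finset.mem_filter] at hq hr
  simp only [Finset.mem_insert, Finset.mem_singleton, not_or] at hq hr
  have hall : ∀ x ∈ ({p, p * w, q, r} : Finset ℂ), x ∈ S ∧ ‖x‖ = 1 := by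
    intro x hx
    simp only [Finset.mem_insert, Finset.mem_singleton] at hx
    rcases hx with h | h | h | h
    · rw [h]; exact ⟨hp, hp1⟩
    · rw [h]; exact ⟨hpw, hpw1⟩
    · rw [h]; exact hq.1
    · rw [h]; exact hr.1
  obtain ⟨x, ρ, hx0, hx1, hx2, hx3, hρ⟩ := hGP D w p q r hw hDc (hne0 p hp1)
    (hne0 q hq.1.2) (hne0 r hr.1.2)
    (fun x hx y hy => hprod x (hall x hx).1 y (hall y hy).1 (hall x hx).2 (hall y hy).2)
    (fun x hx h => hanti x (hall x hx).1 (hall x hx).2 (hall _ h).1)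
    hq.2.1 hq.2.2 hr.2.1 hr.2.2 hqr
  have hxn := (hall _ hx0).2
  have hxne : x ≠ 0 := hne0 x hxn
  have hρ1 : ‖ρ‖ = 1 := by
    have := (hall _ hx1).2
    rwa [norm_mul, hxn, one_mul] at this
  -- rotate
  have hxi : x⁻¹ ≠ 0 := inv_ne_zero hxne
  apply hSB S x⁻¹ 0 hxi
  set T : Finset ℂ := S.image (fun z => x⁻¹ * (z - 0)) with hT
  have hTR : Rich T := hSIM S x⁻¹ 0 hxi hR
  have hTc : T.card = 8 := by rw [hT, Finset.card_image_of_injective _ (inj8 hxi 0), h8]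
  have hmem : ∀ y : ℂ, x * y ∈ S → y ∈ T := by
    intro y hy
    rw [hT, Finset.mem_image]
    refine ⟨x * y, hy, ?_⟩
    field_simp
    ring
  have m0 : (0 : ℂ) ∈ T := hmem 0 (by simpa using h0)
  have m1 : (1 : ℂ) ∈ T := hmem 1 (by simpa using (hall _ hx0).1)
  have mρ : ρ ∈ T := hmem ρ (hall _ hx1).1
  have mρ2 : ρ ^ 2 ∈ T := hmem _ (hall _ hx2).1
  have mρ3 : ρ ^ 3 ∈ T := hmem _ (hall _ hx3).1
  obtain ⟨b1, b2, b3, c1, c2, c3, d1, d2, d3, hTm⟩ :=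
    hCFG T w ρ hw hρ hρ1 hTR hTc m0 m1 mρ mρ2 mρ3
  have hcfg : Cfg T w ρ b1 b2 b3 := ⟨hw, hρ1, hTR, c1, c2, c3, d1, d2, d3, hTm⟩
  rcases hρ with h2 | h3
  · rcases hR2A T w ρ b1 b2 b3 hcfg h2 with ⟨e1, e3⟩ | ⟨e1, e2, e3⟩ | ⟨e1, e2, e3⟩
    · have e2 := hR2D T w ρ b1 b2 b3 hcfg h2 e1 e3
      refine hSHP T ρ b1 b3 (by rw [← h2] at hw; linear_combination hw) hρ1 e1 e3 ?_
      intro z
      rw [hTm z, e2]
    · exact (hR2B T w ρ b1 b2 b3 hcfg h2 e1 e2 e3).elim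
    · exact (hR2C T w ρ b1 b2 b3 hcfg h2 e1 e2 e3).elim
  · exact (hR3 T w ρ b1 b2 b3 hcfg h3).elim

theorem class8 (hSIM : StSIM) (hCB : StCB) (hNA1 : StNA1) (hNA2 : StNA2) (hN4 : StN4)
    (hE1 : StE1) (hGP : StGP)
    (hCFG : StCFG) (hR3 : StR3) (hR2A : StR2A) (hR2B : StR2B) (hR2C : StR2C) (hR2D : StR2D)
    (hSHP : StSHP) (hSB : StSB)
    (S : Finset ℂ) (hR : Rich S) (h8 : S.card = 8) : Sim8 S := by
  obtain ⟨c, hc, r, hr, h4⟩ := hN4 S hR h8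
  have hr0 : (r : ℂ) ≠ 0 := by exact_mod_cast hr.ne'
  have hr1 : (r : ℂ)⁻¹ ≠ 0 := inv_ne_zero hr0
  apply hSB S (r : ℂ)⁻¹ c hr1
  apply norm8 hSIM hCB hNA1 hNA2 hE1 hGP hCFG hR3 hR2A hR2B hR2C hR2D hSHP hSB
  · exact hSIM S _ c hr1 hR
  · rw [Finset.card_image_of_injective _ (inj8 hr1 c), h8]
  · rw [Finset.mem_image]; exact ⟨c, hc, by simp⟩
  · refine le_trans h4 ?_
    have : (S.filter (fun s => dist s c = r)).image (fun z => (r : ℂ)⁻¹ * (z - c)) ⊆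
        (S.image (fun z => (r : ℂ)⁻¹ * (z - c))).filter (fun s => ‖s‖ = 1) := by
      intro z hz
      rw [Finset.mem_image] at hz
      obtain ⟨s, hs, hsz⟩ := hz
      rw [Finset.mem_filter] at hs
      rw [Finset.mem_filter]
      refine ⟨?_, ?_⟩
      · rw [Finset.mem_image]; exact ⟨s, hs.1, hsz⟩
      · rw [← hsz, norm_mul, ← dist_eq_norm, hs.2, norm_inv, Complex.norm_real, Real.norm_eq_abs,
          abs_of_pos hr, inv_mul_cancel₀ hr.ne']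
    calc (S.filter (fun s => dist s c = r)).card
        = ((S.filter (fun s => dist s c = r)).image (fun z => (r : ℂ)⁻¹ * (z - c))).card :=
          (Finset.card_image_of_injective _ (inj8 hr1 c)).symm
      _ ≤ _ := Finset.card_le_card this

end Pool.Agent.Helper82.BR
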