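import Pool.Agent.Helper82.BR.St
import Pool.Agent.Helper82.BR.M_CE
import Pool.Agent.Helper41.BR.M_TR
import Pool.Agent.Helper24.BR.M_SIM
import Pool.Agent.Helper36.BR.M_SUM
import Pool.Agent.Helper88.BR.M_LIN
import Pool.Agent.Helper1.BR.M_NC
import Pool.Agent.Helper42.BR.M_CA
import Pool.Agent.Helper85.BR.M_CB
import Pool.Agent.Helper56.BR.M_CC
import Pool.Agent.Helper51.BR.M_CD
import Pool.Agent.Helper8.BR.M_FA
import Pool.Agent.Helper96.BR.M_KF
import Pool.Agent.Helper15.BR.M_FB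
import Pool.Agent.Helper9.BR.M_FC

namespace Pool.Agent.Helper82.BR

open scoped ComplexConjugate

theorem lin : StLIN := Pool.Agent.Helper88.BR.hLIN Pool.Agent.Helper36.BR.hSUM
theorem sim : StSIM := Pool.Agent.Helper24.BR.hSIM
theorem nc : StNC := Pool.Agent.Helper1.BR.hNC lin sim
theorem cc1 : StCC1 := fun D w p r hw hp hr hD h h1 h2 h3 h4 h5 h6 =>
  Pool.Agent.Helper56.BR.hCC' D w p r hw hp hr hD h h1 h2 h3 h4 h5 h6
theorem ce : StCE := hCE nc Pool.Agent.Helper42.BR.hCA Pool.Agent.Helper85.BR.hCB cc1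
  Pool.Agent.Helper51.BR.hCD

/-- The circle lemma for all circles around points of `S`. -/
theorem circ {S : Finset ℂ} (hR : Rich S) (h2 : 2 ≤ S.card) (h7 : S.card ≤ 7) :
    ∀ c ∈ S, ∀ r : ℝ, 0 < r → (S.filter (fun s => dist s c = r)).card ≤ 3 := by
  intro c hc r hr
  have hr0 : (r : ℂ) ≠ 0 := by exact_mod_cast hr.ne'
  have hinj : Function.Injective (fun z : ℂ => (r : ℂ)⁻¹ * (z - c)) := by
    intro x y hxy
    have := mul_left_cancel₀ (inv_ne_zero hr0) hxy
    linear_combination this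
  set T : Finset ℂ := S.image (fun z => (r : ℂ)⁻¹ * (z - c)) with hT
  have hTc : T.card = S.card := Finset.card_image_of_injective _ hinj
  have hTR : Rich T := sim S _ c (inv_ne_zero hr0) hR
  have h0 : (0 : ℂ) ∈ T := by
    rw [hT, Finset.mem_image]; exact ⟨c, hc, by simp⟩
  have h3 := ce T hTR (hTc ▸ h2) (hTc ▸ h7) h0
  refine le_trans ?_ h3
  have : (S.filter (fun s => dist s c = r)).image (fun z => (r : ℂ)⁻¹ * (z - c)) ⊆
      T.filter (fun s => ‖s‖ = 1) := by
    intro z hz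
    rw [Finset.mem_image] at hz
    obtain ⟨s, hs, hsz⟩ := hz
    rw [Finset.mem_filter] at hs
    rw [Finset.mem_filter]
    refine ⟨?_, ?_⟩
    · rw [hT, Finset.mem_image]; exact ⟨s, hs.1, hsz⟩
    · rw [← hsz, norm_mul, ← dist_eq_norm, hs.2, norm_inv, Complex.norm_real, Real.norm_eq_abs,
        abs_of_pos hr, inv_mul_cancel₀ hr.ne']
  calc (S.filter (fun s => dist s c = r)).card
      = ((S.filter (fun s => dist s c = r)).image (fun z => (r : ℂ)⁻¹ * (z - c))).card :=
        (Finset.card_image_of_injective _ hinj).symm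
    _ ≤ _ := Finset.card_le_card this

theorem eight {S : Finset ℂ} (hR : Rich S) (h2 : 2 ≤ S.card) : 8 ≤ S.card := by
  by_contra hcon
  have h7 : S.card ≤ 7 := by omega
  have h3 := Pool.Agent.Helper8.BR.hFA S hR (circ hR h2 h7)
  exact Pool.Agent.Helper9.BR.hFC S h2 h7
    (Pool.Agent.Helper15.BR.hFB Pool.Agent.Helper96.BR.hKF S h7 h3)

end Pool.Agent.Helper82.BR
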