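import Pool.Agent.Helper82.BR.St

namespace Pool.Agent.Helper82.BR

theorem hPR : StPR := by
  intro A h0 h3
  by_contra hcon
  rw [not_le] at hcon
  set Sg : Finset ℂ := (A.offDiag).image (fun x => x.1 * x.2) with hSg
  have hA0 : ∀ x ∈ A, x ≠ 0 := fun x hx h => h0 (h ▸ hx)
  have key : ∀ p ∈ A, (A.erase p).image (fun y => p * y) = Sg := by
    intro p hp
    apply Finset.eq_of_subset_of_card_le
    · intro z hz
      rw [Finset.mem_image] at hz
      obtain ⟨y, hy, hyz⟩ := hz
      rw [Finset.mem_erase] at hy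
      rw [hSg, Finset.mem_image]
      exact ⟨(p, y), Finset.mem_offDiag.mpr ⟨hp, hy.2, Ne.symm hy.1⟩, hyz⟩
    · rw [Finset.card_image_of_injective _ (mul_right_injective₀ (hA0 p hp)),
        Finset.card_erase_of_mem hp]
      omega
  have hprod : ∀ p ∈ A, p * ∏ x ∈ Sg, x = p ^ (A.card - 1) * ∏ x ∈ A, x := by
    intro p hp
    rw [← key p hp, Finset.prod_image (fun a _ b _ hab => mul_right_injective₀ (hA0 p hp) hab),
      Finset.prod_mul_distrib, Finset.prod_const, Finset.card_erase_of_mem hp]
    have := Finset.mul_prod_erase A (fun x => x) hp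
    rw [← this]; ring
  have hPA : ∏ x ∈ A, x ≠ 0 := Finset.prod_ne_zero_iff.mpr hA0
  set c : ℂ := (∏ x ∈ Sg, x) / (∏ x ∈ A, x) with hc
  have hroot : ∀ p ∈ A, p ^ (A.card - 2) = c := by
    intro p hp
    have h1 := hprod p hp
    have h2 : A.card - 1 = (A.card - 2) + 1 := by omega
    rw [h2, pow_succ] at h1
    rw [hc, eq_div_iff hPA]
    have hp0 := hA0 p hp
    apply mul_left_cancel₀ hp0
    rw [h1]; ring
  have hsub : A ⊆ (Polynomial.nthRoots (A.card - 2) c).toFinset := by
    intro p hp
    rw [Multiset.mem_toFinset, Polynomial.mem_nthRoots (by omega)]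
    exact hroot p hp
  have h4 := Finset.card_le_card hsub
  have h5 := Multiset.toFinset_card_le (Polynomial.nthRoots (A.card - 2) c)
  have h6 := Polynomial.card_nthRoots (A.card - 2) c
  omega

end Pool.Agent.Helper82.BR
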