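import Pool.Agent.Helper82.BR.St
import Pool.Agent.Helper82.BR.M_PR
import Pool.Agent.Helper41.BR.M_TR
import Pool.Agent.Helper24.BR.M_SIM
import Pool.Agent.Helper36.BR.M_SUM
import Pool.Agent.Helper88.BR.M_LIN
import Pool.Agent.Helper72.BR.M_CI
import Pool.Agent.Helper45.BR.M_CT

namespace Pool.Agent.Helper82.BR

open scoped ComplexConjugate

theorem sim2 : StSIM := Pool.Agent.Helper24.BR.hSIM

theorem inj_sim {a : ℂ} (ha : a ≠ 0) (c : ℂ) : Function.Injective (fun z : ℂ => a * (z - c)) := by
  intro x y hxy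
  have := mul_left_cancel₀ ha hxy
  linear_combination this

/-- Lines in `ℂ`. -/
theorem line_C {S : Finset ℂ} (hR : Rich S) (h2 : 2 ≤ S.card) (c u : ℂ) (hu : u ≠ 0) :
    4 * (S.filter (fun s => ((s - c) * conj u).im = 0)).card ≤ S.card + 4 := by
  have hu' : conj u ≠ 0 := by simpa using hu
  have hlin : StLIN := Pool.Agent.Helper88.BR.hLIN Pool.Agent.Helper36.BR.hSUM
  set T : Finset ℂ := S.image (fun z => conj u * (z - c)) with hT
  have hTc : T.card = S.card := Finset.card_image_of_injective _ (inj_sim hu' c)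
  have h := hlin T (sim2 S _ c hu' hR) (hTc ▸ h2)
  have hsub : (S.filter (fun s => ((s - c) * conj u).im = 0)).image (fun z => conj u * (z - c)) ⊆
      T.filter (fun s => s.im = 0) := by
    intro z hz
    rw [Finset.mem_image] at hz
    obtain ⟨s, hs, hsz⟩ := hz
    rw [Finset.mem_filter] at hs
    rw [Finset.mem_filter]
    refine ⟨?_, ?_⟩
    · rw [hT, Finset.mem_image]; exact ⟨s, hs.1, hsz⟩
    · rw [← hsz, mul_comm]; exact hs.2
  have := Finset.card_le_card hsub
  rw [Finset.card_image_of_injective _ (inj_sim hu' c)] at this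
  omega

/-- Circles in `ℂ`. -/
theorem circ_C {S : Finset ℂ} (hR : Rich S) (h2 : 2 ≤ S.card) (c : ℂ) (r : ℝ) (hr : 0 < r) :
    (c ∉ S → 2 * (S.filter (fun s => dist s c = r)).card ≤ S.card) ∧
    (c ∈ S → 9 * (S.filter (fun s => dist s c = r)).card + 8 ≤ 8 * S.card) := by
  have hr0 : (r : ℂ) ≠ 0 := by exact_mod_cast hr.ne'
  have hr1 : (r : ℂ)⁻¹ ≠ 0 := inv_ne_zero hr0
  have hinj := inj_sim hr1 c
  set T : Finset ℂ := S.image (fun z => (r : ℂ)⁻¹ * (z - c)) with hT
  have hTc : T.card = S.card := Finset.card_image_of_injective _ hinj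
  have hTR : Rich T := sim2 S _ c hr1 hR
  have h0 : (0 : ℂ) ∈ T ↔ c ∈ S := by
    rw [hT, Finset.mem_image]
    constructor
    · rintro ⟨s, hs, hs0⟩
      have : s - c = 0 := by
        rcases mul_eq_zero.mp hs0 with h | h
        · exact absurd h hr1
        · exact h
      have : s = c := by linear_combination this
      exact this ▸ hs
    · intro h; exact ⟨c, h, by simp⟩
  have hsub : (S.filter (fun s => dist s c = r)).image (fun z => (r : ℂ)⁻¹ * (z - c)) ⊆
      T.filter (fun s => ‖s‖ = 1) := by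
    intro z hz
    rw [Finset.mem_image] at hz
    obtain ⟨s, hs, hsz⟩ := hz
    rw [Finset.mem_filter] at hs
    rw [Finset.mem_filter]
    refine ⟨?_, ?_⟩
    · rw [hT, Finset.mem_image]; exact ⟨s, hs.1, hsz⟩
    · rw [← hsz, norm_mul, ← dist_eq_norm, hs.2, norm_inv, Complex.norm_real, Real.norm_eq_abs,
        abs_of_pos hr, inv_mul_cancel₀ hr.ne']
  have hle := Finset.card_le_card hsub
  rw [Finset.card_image_of_injective _ hinj] at hle
  constructor
  · intro hc
    have := Pool.Agent.Helper72.BR.hCI hPR T hTR (hTc ▸ h2) (fun h => hc (h0.mp h))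
    omega
  · intro hc
    have := Pool.Agent.Helper45.BR.hCT hPR T hTR (hTc ▸ h2) (h0.mpr hc)
    omega

/-- Passing to `ℂ`: points of `S` in a set `X` of the plane. -/
theorem count_C {S : Set Plane} (hS : BisectorRich S) :
    ∃ T : Finset ℂ, T.card = S.ncard ∧ Rich T ∧ 2 ≤ T.card ∧
      (∀ c, Complex.orthonormalBasisOneI.repr c ∈ S ↔ c ∈ T) ∧
      ∀ (X : Set Plane) (P : ℂ → Prop) [DecidablePred P],
        (∀ z ∈ T, Complex.orthonormalBasisOneI.repr z ∈ X → P z) →
        (X ∩ S).ncard ≤ (T.filter P).card := by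
  obtain ⟨T, hT, hTc, hTR⟩ := Pool.Agent.Helper41.BR.hTR S hS
  refine ⟨T, hTc, hTR, hTc ▸ hS.2.1, fun c => (hT c).symm, ?_⟩
  intro X P _ hP
  have hfin : (((T.filter P).image (fun z => Complex.orthonormalBasisOneI.repr z) :
      Finset Plane) : Set Plane).Finite := Finset.finite_toSet _
  have hsub : X ∩ S ⊆ (((T.filter P).image (fun z => Complex.orthonormalBasisOneI.repr z) :
      Finset Plane) : Set Plane) := by
    intro y hy
    have hy' : Complex.orthonormalBasisOneI.repr (Complex.orthonormalBasisOneI.repr.symm y) = y :=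
      LinearIsometryEquiv.apply_symm_apply _ y
    rw [Finset.mem_coe, Finset.mem_image]
    have hyT : Complex.orthonormalBasisOneI.repr.symm y ∈ T := by
      rw [hT, hy']; exact hy.2
    refine ⟨Complex.orthonormalBasisOneI.repr.symm y, Finset.mem_filter.mpr ⟨hyT, ?_⟩, hy'⟩
    apply hP _ hyT
    rw [hy']; exact hy.1
  calc (X ∩ S).ncard ≤ _ := Set.ncard_le_ncard hsub hfin
    _ = ((T.filter P).image (fun z => Complex.orthonormalBasisOneI.repr z)).card :=
        Set.ncard_coe_finset _
    _ ≤ (T.filter P).card := Finset.card_image_le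

end Pool.Agent.Helper82.BR
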