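import Pool.Agent.Helper82.BR.St

namespace Pool.Agent.Helper82.BR

/-- KEL: Kelly's eight points. -/
def StKEL : Prop := ∃ T : Finset ℂ, T.card = 8 ∧ Rich T

/-- BK: transfer back to the plane. -/
def StBK : Prop := ∀ T : Finset ℂ, 2 ≤ T.card → Rich T →
  ∃ S : Set Plane, BisectorRich S ∧ S.ncard = T.card

end Pool.Agent.Helper82.BR
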