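import Pool.Agent.Helper82.BR.St3

namespace Pool.Agent.Helper82.BR

/-- KR: both of Kelly's sets are rich. -/
def StKR : Prop := ∀ h : ℝ, (h = 1 + Real.sqrt 3 ∨ h = 1 - Real.sqrt 3) →
  Rich (KC h) ∧ (KC h).card = 8

/-- KT: transfer. -/
def StKT : Prop := ∀ h : ℝ, Rich (KC h) → (KC h).card = 8 → BisectorRich (kelly h)

end Pool.Agent.Helper82.BR
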